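import Mathlib
import Pool.Agent.Lib.helper18.DigLap

set_option autoImplicit false

open Classical Matrix Finset

namespace Pool.Agent.Results.MP_df5386_co.Blowup

/-- Laplacian `D - A` of the digraph with arc relation `a` (out-degrees on the diagonal). -/
noncomputable def lap {n : ℕ} (a : Fin n → Fin n → Prop) : Matrix (Fin n) (Fin n) ℝ :=
  Matrix.of fun i j => (if i = j then (({k | a i k} : Set (Fin n)).ncard : ℝ) else 0) -
    (if a i j then 1 else 0)

/-- Values `xᵀ L x` over real unit vectors `x` orthogonal to the all-ones vector. -/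
def vals {n : ℕ} (L : Matrix (Fin n) (Fin n) ℝ) : Set ℝ :=
  {t | ∃ x : Fin n → ℝ, ∑ i, x i = 0 ∧ x ⬝ᵥ x = 1 ∧ x ⬝ᵥ (L *ᵥ x) = t}

/-- Laplacian spread `β - α`. -/
noncomputable def sp {n : ℕ} (a : Fin n → Fin n → Prop) : ℝ :=
  sSup (vals (lap a)) - sInf (vals (lap a))

lemma sp_eq {n : ℕ} (a : Fin n → Fin n → Prop) :
    sp a = sSup (H18Dig.rset (H18Dig.lap a)) - sInf (H18Dig.rset (H18Dig.lap a)) := by
  have : lap a = H18Dig.lap a := by
    ext i j; simp only [lap, H18Dig.lap, of_apply]; congr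
  unfold sp; rw [this]; rfl

def b (i j : Fin 5) : Prop :=
  i ≠ j ∧ (i = 0 ∨ i = 1 ∨ (i = 2 ∧ (j = 0 ∨ j = 3)))

def pr (t : ℕ) (i : Fin (t * 5)) : Fin 5 := (finProdFinEquiv.symm i).2

lemma sum_pr (t : ℕ) (g : Fin 5 → ℝ) : ∑ i, g (pr t i) = t * ∑ c, g c := by
  rw [← Equiv.sum_comp finProdFinEquiv, Fintype.sum_prod_type]
  simp [pr]

lemma quad_pr (t : ℕ) (x : Fin 5 → ℝ) :
    (fun i => x (pr t i)) ⬝ᵥ (H18Dig.lap (fun i j => b (pr t i) (pr t j)) *ᵥ fun i => x (pr t i)) =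
      t * (t * ∑ c, ∑ d, if b c d then x c * x c - x c * x d else 0) := by
  rw [H18Dig.quad]
  have h := fun c => sum_pr t (fun d => if b c d then x c * x c - x c * x d else 0)
  simp only [h]
  rw [sum_pr t (fun c => t * ∑ d, if b c d then x c * x c - x c * x d else 0), ← Finset.mul_sum]

theorem result : ∀ C : ℝ, ∃ (n : ℕ) (a : Fin n → Fin n → Prop), 2 ≤ n ∧ (∀ i, ¬ a i i) ∧
    n + C < sp a := by
  intro C
  obtain ⟨t, ht⟩ := exists_nat_gt (max 1 (13 * C))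
  have t1 : (1 : ℝ) < t := (le_max_left _ _).trans_lt ht
  have t2 : 13 * C < t := (le_max_right _ _).trans_lt ht
  have t3 : 1 < t := by exact_mod_cast t1
  refine ⟨t * 5, fun i j => b (pr t i) (pr t j), by omega, fun i h => h.1 rfl, ?_⟩
  rw [sp_eq]
  have h1 := (H18Dig.ray (H18Dig.lap fun i j => b (pr t i) (pr t j))
    (fun i => (![4, -3, -1, 0, 0] : Fin 5 → ℝ) (pr t i)) (by
      rw [sum_pr]; simp [Fin.sum_univ_five]; norm_num)).2
  have h2 := (H18Dig.ray (H18Dig.lap fun i j => b (pr t i) (pr t j))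
    (fun i => (![0, 0, -1, -3, 4] : Fin 5 → ℝ) (pr t i)) (by
      rw [sum_pr]; simp [Fin.sum_univ_five]; norm_num)).1
  rw [quad_pr] at h1 h2
  unfold dotProduct at h1 h2
  rw [sum_pr t (fun c => (![4, -3, -1, 0, 0] : Fin 5 → ℝ) c * (![4, -3, -1, 0, 0] : Fin 5 → ℝ) c)] at h1
  rw [sum_pr t (fun c => (![0, 0, -1, -3, 4] : Fin 5 → ℝ) c * (![0, 0, -1, -3, 4] : Fin 5 → ℝ) c)] at h2
  generalize H18Dig.rset (H18Dig.lap fun i j => b (pr t i) (pr t j)) = R at h1 h2 ⊢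
  simp [Fin.sum_univ_five, b] at h1 h2
  have e1 : 131 * (t : ℝ) ≤ 26 * sSup R := le_of_mul_le_mul_left (by linarith) (by linarith : (0 : ℝ) < t)
  have e2 : 26 * sInf R ≤ -(t : ℝ) := le_of_mul_le_mul_left (by linarith) (by linarith : (0 : ℝ) < t)
  push_cast
  linarith

end Pool.Agent.Results.MP_df5386_co.Blowup
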